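import Mathlib

/-!
FULL KLS, delta (helper83): iterated partial derivatives along words and Appell polynomials
(pure algebra of `MvPolynomial`).
-/

open scoped BigOperators
open MvPolynomial

noncomputable section

namespace Pool.Agent.Lib.MP_8d00da_gt.h83a

variable {ι : Type} [Fintype ι] [DecidableEq ι]

/-- iterated partial derivative along a word -/
def dL : List ι → MvPolynomial ι ℝ → MvPolynomial ι ℝ
  | [], p => p
  | i :: L, p => pderiv i (dL L p)

omit [Fintype ι] [DecidableEq ι] in
@[simp] theorem dL_nil (p : MvPolynomial ι ℝ) : dL [] p = p := rfl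

omit [Fintype ι] [DecidableEq ι] in
@[simp] theorem dL_cons (i : ι) (L : List ι) (p : MvPolynomial ι ℝ) :
    dL (i :: L) p = pderiv i (dL L p) := rfl

omit [Fintype ι] [DecidableEq ι] in
theorem dL_add (L : List ι) (p q : MvPolynomial ι ℝ) : dL L (p + q) = dL L p + dL L q := by
  induction L with
  | nil => rfl
  | cons i L ih => simp [ih]

omit [Fintype ι] [DecidableEq ι] in
theorem dL_sub (L : List ι) (p q : MvPolynomial ι ℝ) : dL L (p - q) = dL L p - dL L q := by
  induction L with
  | nil => rfl
  | cons i L ih => simp [ih]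

omit [Fintype ι] [DecidableEq ι] in
theorem dL_smul (L : List ι) (c : ℝ) (p : MvPolynomial ι ℝ) : dL L (c • p) = c • dL L p := by
  induction L with
  | nil => rfl
  | cons i L ih => simp [ih]

omit [Fintype ι] [DecidableEq ι] in
@[simp] theorem dL_zero (L : List ι) : dL L (0 : MvPolynomial ι ℝ) = 0 := by
  induction L with
  | nil => rfl
  | cons i L ih => simp [ih]

omit [Fintype ι] [DecidableEq ι] in
theorem pderiv_comm' (i j : ι) (p : MvPolynomial ι ℝ) :
    pderiv i (pderiv j p) = pderiv j (pderiv i p) := by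
  classical
  ext m
  rw [coeff_pderiv, coeff_pderiv, coeff_pderiv, coeff_pderiv]
  by_cases h : i = j
  · subst h; rfl
  · have e : m + Finsupp.single i 1 + Finsupp.single j 1 =
        m + Finsupp.single j 1 + Finsupp.single i 1 := by
      rw [add_assoc, add_assoc, add_comm (Finsupp.single i 1)]
    rw [e]
    have h1 : (m + Finsupp.single i 1 : ι →₀ ℕ) j = m j := by
      simp [Finsupp.single_apply, h]
    have h2 : (m + Finsupp.single j 1 : ι →₀ ℕ) i = m i := by
      simp [Finsupp.single_apply, Ne.symm h]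
    rw [h1, h2]
    ring

omit [Fintype ι] [DecidableEq ι] in
/-- the last letter may be taken first -/
theorem dL_pderiv (L : List ι) (i : ι) (p : MvPolynomial ι ℝ) :
    dL L (pderiv i p) = pderiv i (dL L p) := by
  induction L with
  | nil => rfl
  | cons j L ih => rw [dL_cons, dL_cons, ih, pderiv_comm']

omit [Fintype ι] [DecidableEq ι] in
/-- the order of the letters is irrelevant -/
theorem dL_perm {L L' : List ι} (h : L.Perm L') (p : MvPolynomial ι ℝ) : dL L p = dL L' p := by
  induction h with
  | nil => rfl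
  | cons i _ ih => rw [dL_cons, dL_cons, ih]
  | swap i j L => rw [dL_cons, dL_cons, dL_cons, dL_cons, pderiv_comm']
  | trans _ _ ih1 ih2 => rw [ih1, ih2]

omit [Fintype ι] [DecidableEq ι] in
theorem totalDegree_pderiv_le (i : ι) (p : MvPolynomial ι ℝ) (d : ℕ)
    (hp : p.totalDegree ≤ d + 1) : (pderiv i p).totalDegree ≤ d := by
  classical
  rw [totalDegree, Finset.sup_le_iff]
  intro m hm
  rw [mem_support_iff, coeff_pderiv] at hm
  have h1 : coeff (m + Finsupp.single i 1) p ≠ 0 := left_ne_zero_of_mul hm
  have h2 := le_totalDegree (mem_support_iff.mpr h1)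
  have h3 : ((m + Finsupp.single i 1).sum fun _ e => e) = (m.sum fun _ e => e) + 1 := by
    rw [Finsupp.sum_add_index' (fun _ => rfl) (fun _ _ _ => rfl), Finsupp.sum_single_index rfl]
  omega

omit [Fintype ι] [DecidableEq ι] in
theorem pderiv_eq_zero_of_deg (i : ι) (p : MvPolynomial ι ℝ) (hp : p.totalDegree = 0) :
    pderiv i p = 0 := by
  rw [totalDegree_eq_zero_iff_eq_C] at hp
  rw [hp, pderiv_C]

omit [Fintype ι] [DecidableEq ι] in
theorem totalDegree_dL_le (L : List ι) (p : MvPolynomial ι ℝ) (d : ℕ)
    (hp : p.totalDegree ≤ d + L.length) : (dL L p).totalDegree ≤ d := by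
  induction L generalizing d with
  | nil => simpa using hp
  | cons i L ih =>
    rw [dL_cons]
    refine totalDegree_pderiv_le i _ d (ih (d + 1) ?_)
    simp only [List.length_cons] at hp
    omega

omit [Fintype ι] [DecidableEq ι] in
theorem dL_eq_zero (L : List ι) (p : MvPolynomial ι ℝ) (hp : p.totalDegree < L.length) :
    dL L p = 0 := by
  cases L with
  | nil => simp at hp
  | cons i L =>
    rw [dL_cons]
    refine pderiv_eq_zero_of_deg i _ ?_
    have := totalDegree_dL_le L p 0 (by simp only [List.length_cons] at hp; omega)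
    omega

omit [Fintype ι] [DecidableEq ι] in
/-- a word of length equal to the degree gives a constant -/
theorem dL_eq_C (L : List ι) (p : MvPolynomial ι ℝ) (hp : p.totalDegree ≤ L.length) :
    ∃ c : ℝ, dL L p = C c := by
  have h := totalDegree_dL_le L p 0 (by omega)
  have h2 : (dL L p).totalDegree = 0 := by omega
  rw [totalDegree_eq_zero_iff_eq_C] at h2
  exact ⟨_, h2⟩

/-- symmetric coefficient tensors -/
def SymT (l : ℕ) (c : (Fin l → ι) → ℝ) : Prop :=
  ∀ (σ : Equiv.Perm (Fin l)) (I : Fin l → ι), c (I ∘ σ) = c I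

omit [Fintype ι] [DecidableEq ι] in
theorem SymT.cons {l : ℕ} {c : (Fin (l + 1) → ι) → ℝ} (h : SymT (l + 1) c) (i : ι) :
    SymT l (fun J => c (Fin.cons i J)) := by
  intro σ I
  have e : (Fin.cons i (I ∘ σ) : Fin (l + 1) → ι) =
      (Fin.cons i I : Fin (l + 1) → ι) ∘ (Equiv.Perm.decomposeFin.symm (0, σ)) := by
    funext j
    refine Fin.cases ?_ (fun k => ?_) j
    · simp
    · simp [Equiv.Perm.decomposeFin_symm_apply_succ]
  show c (Fin.cons i (I ∘ σ)) = c (Fin.cons i I)
  rw [e]
  exact h _ _

omit [Fintype ι] [DecidableEq ι] in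
theorem SymT.swap {l : ℕ} {c : (Fin (l + 2) → ι) → ℝ} (h : SymT (l + 2) c) (i j : ι)
    (J : Fin l → ι) : c (Fin.cons i (Fin.cons j J)) = c (Fin.cons j (Fin.cons i J)) := by
  have e : (Fin.cons i (Fin.cons j J) : Fin (l + 2) → ι) =
      (Fin.cons j (Fin.cons i J) : Fin (l + 2) → ι) ∘ (Equiv.swap (0 : Fin (l + 2)) 1) := by
    funext k
    refine Fin.cases ?_ (fun k => ?_) k
    · simp only [Function.comp_apply, Equiv.swap_apply_left, Fin.cons_zero]
      rfl
    · refine Fin.cases ?_ (fun k => ?_) k
      · simp only [Function.comp_apply]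
        rw [show (Fin.succ (0 : Fin (l + 1))) = (1 : Fin (l + 2)) from rfl,
          Equiv.swap_apply_right]
        rfl
      · simp only [Function.comp_apply]
        rw [Equiv.swap_apply_of_ne_of_ne (Fin.succ_ne_zero _)]
        · rfl
        · intro hk
          have : (Fin.succ (Fin.succ k)) = Fin.succ (0 : Fin (l + 1)) := hk
          exact Fin.succ_ne_zero _ (Fin.succ_injective _ this)
  rw [e]
  exact h _ _

/-- the homogeneous polynomial with `l`-th derivatives `c` (if `c` is symmetric) -/
def PR : (l : ℕ) → ((Fin l → ι) → ℝ) → MvPolynomial ι ℝ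
  | 0, c => C (c (fun i => i.elim0))
  | l + 1, c => ((l : ℝ) + 1)⁻¹ • ∑ i, X i * PR l (fun J => c (Fin.cons i J))

omit [DecidableEq ι] in
theorem totalDegree_PR (l : ℕ) (c : (Fin l → ι) → ℝ) : (PR l c).totalDegree ≤ l := by
  induction l with
  | zero => simp [PR]
  | succ l ih =>
    rw [PR]
    refine (totalDegree_smul_le _ _).trans ?_
    refine totalDegree_finsetSum_le fun i _ => ?_
    refine (totalDegree_mul _ _).trans ?_
    have := ih (fun J => c (Fin.cons i J))
    have h1 : (X i : MvPolynomial ι ℝ).totalDegree ≤ 1 := by rw [totalDegree_X]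
    omega

theorem pderiv_PR (l : ℕ) (c : (Fin (l + 1) → ι) → ℝ) (hc : SymT (l + 1) c) (i : ι) :
    pderiv i (PR (l + 1) c) = PR l (fun J => c (Fin.cons i J)) := by
  induction l with
  | zero =>
    rw [PR, PR]
    simp only [PR, Nat.cast_zero, zero_add, inv_one, one_smul, map_sum]
    rw [Finset.sum_eq_single i]
    · rw [pderiv_mul, pderiv_X_self, pderiv_C, mul_zero, add_zero, one_mul]
    · intro j _ hj
      rw [pderiv_mul, pderiv_X_of_ne hj, pderiv_C, mul_zero, add_zero, zero_mul]
    · intro h; exact absurd (Finset.mem_univ i) h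
  | succ l ih =>
    rw [PR]
    simp only [Derivation.map_smul, map_sum]
    have h1 : ∀ j : ι, pderiv i (X j * PR (l + 1) (fun J => c (Fin.cons j J))) =
        (if j = i then PR (l + 1) (fun J => c (Fin.cons i J)) else 0) +
          X j * PR l (fun J => c (Fin.cons i (Fin.cons j J))) := by
      intro j
      rw [pderiv_mul, ih _ (hc.cons j)]
      have h2 : (fun J : Fin l → ι => c (Fin.cons j (Fin.cons i J))) =
          fun J => c (Fin.cons i (Fin.cons j J)) := by
        funext J; exact hc.swap j i J
      rw [h2]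
      by_cases hj : j = i
      · subst hj
        rw [pderiv_X_self, one_mul, if_pos rfl]
      · rw [pderiv_X_of_ne hj, zero_mul, if_neg hj]
    simp only [h1, Finset.sum_add_distrib]
    rw [Finset.sum_ite_eq' Finset.univ i, if_pos (Finset.mem_univ i)]
    have h3 : ∑ j, X j * PR l (fun J => c (Fin.cons i (Fin.cons j J))) =
        ((l : ℝ) + 1) • PR (l + 1) (fun J => c (Fin.cons i J)) := by
      rw [PR, smul_smul, mul_inv_cancel₀ (by positivity), one_smul]
    rw [h3]
    have h4 : ∀ q : MvPolynomial ι ℝ, q + ((l : ℝ) + 1) • q = ((l : ℝ) + 1 + 1) • q := by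
      intro q
      rw [add_smul ((l : ℝ) + 1) 1 q, one_smul, add_comm]
    rw [h4, smul_smul]
    push_cast
    rw [inv_mul_cancel₀ (by positivity), one_smul]

theorem dL_PR (l : ℕ) (c : (Fin l → ι) → ℝ) (hc : SymT l c) (I : Fin l → ι) :
    dL (List.ofFn I) (PR l c) = C (c I) := by
  induction l with
  | zero =>
    rw [List.ofFn_zero, dL_nil, PR]
    congr 2
    funext i; exact i.elim0
  | succ l ih =>
    rw [List.ofFn_succ, dL_cons, ← dL_pderiv, pderiv_PR l c hc, ih _ (hc.cons _)]
    congr 2
    exact Fin.cons_self_tail I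

omit [Fintype ι] [DecidableEq ι] in
theorem exists_ofFn (n : ℕ) (L : List ι) (h : L.length = n) :
    ∃ I : Fin n → ι, L = List.ofFn I := by
  subst h
  exact ⟨L.get, (List.ofFn_get L).symm⟩

/-- APPELL POLYNOMIALS: for a linear functional `E` with `E 1 = 1` and a symmetric tensor `c` of
order `l ≥ 1` there is a polynomial `f` of degree `≤ l` with `l`-th derivatives `c` and
`E (∂_L f) = 0` for all words `L` with `0 < |L| < l`. -/
theorem appell_exists (E : MvPolynomial ι ℝ →ₗ[ℝ] ℝ) (hE : E 1 = 1) (l : ℕ)
    (c : (Fin l → ι) → ℝ) (hc : SymT l c) :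
    ∃ f : MvPolynomial ι ℝ, f.totalDegree ≤ l ∧
      (∀ L : List ι, 0 < L.length → L.length < l → E (dL L f) = 0) ∧
      ∀ I : Fin l → ι, dL (List.ofFn I) f = C (c I) := by
  have key : ∀ k : ℕ, k ≤ l → ∃ f : MvPolynomial ι ℝ, f.totalDegree ≤ l ∧
      (∀ L : List ι, l < L.length + k → 0 < L.length → L.length < l → E (dL L f) = 0) ∧
      ∀ I : Fin l → ι, dL (List.ofFn I) f = C (c I) := by
    intro k
    induction k with
    | zero =>
      intro _
      exact ⟨PR l c, totalDegree_PR l c, fun L h1 _ h3 => by omega, dL_PR l c hc⟩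
    | succ k ih =>
      intro hk
      obtain ⟨f, hf1, hf2, hf3⟩ := ih (by omega)
      by_cases h0 : k = 0
      · subst h0
        exact ⟨f, hf1, fun L h1 h2 h3 => by omega, hf3⟩
      -- correct the words of length `l - k`
      set n := l - k with hn
      set B : (Fin n → ι) → ℝ := fun I => E (dL (List.ofFn I) f) with hB
      have hBs : SymT n B := by
        intro σ I
        simp only [hB]
        rw [dL_perm (Equiv.Perm.ofFn_comp_perm σ I)]
      refine ⟨f - PR n B, ?_, ?_, ?_⟩
      · refine (totalDegree_sub _ _).trans (max_le hf1 ?_)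
        exact (totalDegree_PR n B).trans (by omega)
      · intro L h1 h2 h3
        rw [dL_sub]
        by_cases hL : L.length = n
        · obtain ⟨I, rfl⟩ := exists_ofFn n L hL
          rw [dL_PR n B hBs, map_sub]
          have : E (C (B I)) = B I := by
            rw [← mul_one (B I), C_mul, ← smul_eq_C_mul]
            simp [hE]
          rw [this]
          simp [hB]
        · rw [dL_eq_zero L (PR n B) (lt_of_le_of_lt (totalDegree_PR n B) (by omega)), sub_zero]
          exact hf2 L (by omega) h2 h3
      · intro I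
        rw [dL_sub, hf3 I, dL_eq_zero _ (PR n B), sub_zero]
        refine lt_of_le_of_lt (totalDegree_PR n B) ?_
        rw [List.length_ofFn]
        omega
  obtain ⟨f, h1, h2, h3⟩ := key l le_rfl
  exact ⟨f, h1, fun L hL hL2 => h2 L (by omega) hL hL2, h3⟩

end Pool.Agent.Lib.MP_8d00da_gt.h83a
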