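import Pool.Agent.Lib.MP_8d00da_gt.h62a.Words
import Pool.Agent.Lib.MP_8d00da_gt.h83a.Appell

/-!
FULL KLS, delta (helper83): abstract Taylor formula, base case and moment bounds.

`S : Sys ι H` is the abstract system, `E : MvPolynomial ι ℝ →ₗ[ℝ] ℝ` the expectation of
polynomials, `J : MvPolynomial ι ℝ →ₗ[ℝ] H` the class of `p - E p` in `H`. The only analytic
input is the KEY FORMULA
  `⟪J p, h⟫ = ∑ i ⟪J (∂_i p), T_i h⟫ + ∑ i E (∂_i p) * ⟪x_i, h⟫`.
-/

open scoped BigOperators InnerProductSpace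
open MvPolynomial

noncomputable section

namespace Pool.Agent.Lib.MP_8d00da_gt.h83a

open Pool.Agent.Lib.MP_8d00da_gt.h62a

variable {ι : Type} [Fintype ι] [DecidableEq ι]
variable {H : Type*} [NormedAddCommGroup H] [InnerProductSpace ℝ H]

/-- the analytic input for polynomials -/
structure PolyJ (S : Sys ι H) (E : MvPolynomial ι ℝ →ₗ[ℝ] ℝ)
    (J : MvPolynomial ι ℝ →ₗ[ℝ] H) : Prop where
  e1 : E 1 = 1
  jC : ∀ c : ℝ, J (C c) = 0
  key : ∀ (p : MvPolynomial ι ℝ) (h : H),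
    ⟪J p, h⟫_ℝ = ∑ i, ⟪J (pderiv i p), S.T i h⟫_ℝ + ∑ i, E (pderiv i p) * ⟪S.x i, h⟫_ℝ
  c0 : ∀ h : H, ∑ i, ⟪S.x i, h⟫_ℝ ^ 2 ≤ ‖h‖ ^ 2

variable {S : Sys ι H} {E : MvPolynomial ι ℝ →ₗ[ℝ] ℝ} {J : MvPolynomial ι ℝ →ₗ[ℝ] H}

/-- Taylor formula with remainder -/
theorem taylor_rem (hJ : PolyJ S E J) (p : MvPolynomial ι ℝ) (h : H) (n : ℕ) :
    ⟪J p, h⟫_ℝ = ∑ j ∈ Finset.range n, ∑ I : Fin (j + 1) → ι,
        E (dL (List.ofFn I) p) * S.xw (List.ofFn I) h
      + ∑ I : Fin n → ι, ⟪J (dL (List.ofFn I) p), S.word (List.ofFn I) h⟫_ℝ := by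
  induction n with
  | zero =>
    rw [Finset.range_zero, Finset.sum_empty, zero_add,
      Fintype.sum_eq_single (fun i : Fin 0 => i.elim0)]
    · simp [Sys.word_nil]
    · intro b hb; exact absurd (Subsingleton.elim _ _) hb
  | succ n ih =>
    rw [ih, Finset.sum_range_succ, add_assoc]
    congr 1
    have h1 : ∀ I : Fin n → ι, ⟪J (dL (List.ofFn I) p), S.word (List.ofFn I) h⟫_ℝ =
        ∑ i, ⟪J (dL (i :: List.ofFn I) p), S.word (i :: List.ofFn I) h⟫_ℝ +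
          ∑ i, E (dL (i :: List.ofFn I) p) * S.xw (i :: List.ofFn I) h := by
      intro I
      rw [hJ.key]
      rfl
    rw [Finset.sum_congr rfl fun I _ => h1 I, Finset.sum_add_distrib,
      sum_cons n (fun L => E (dL L p) * S.xw L h),
      sum_cons n (fun L => ⟪J (dL L p), S.word L h⟫_ℝ), add_comm]
    congr 1
    · exact Finset.sum_comm
    · exact Finset.sum_comm

/-- Taylor formula for a polynomial of degree at most `b` -/
theorem taylor (hJ : PolyJ S E J) (p : MvPolynomial ι ℝ) (b : ℕ) (hp : p.totalDegree ≤ b)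
    (h : H) :
    ⟪J p, h⟫_ℝ = ∑ j ∈ Finset.range b, ∑ I : Fin (j + 1) → ι,
        E (dL (List.ofFn I) p) * S.xw (List.ofFn I) h := by
  rw [taylor_rem hJ p h b]
  have h1 : ∑ I : Fin b → ι, ⟪J (dL (List.ofFn I) p), S.word (List.ofFn I) h⟫_ℝ = 0 := by
    refine Finset.sum_eq_zero fun I _ => ?_
    obtain ⟨c, hc⟩ := dL_eq_C (List.ofFn I) p (by rw [List.length_ofFn]; exact hp)
    rw [hc, hJ.jC, inner_zero_left]
  rw [h1, add_zero]

/-- the square sum of the tensor `xw` over words of length `j + 1` -/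
theorem sum_xw_sq_le (hJ : PolyJ S E J) (j : ℕ) (h : H) :
    ∑ I : Fin (j + 1) → ι, S.xw (List.ofFn I) h ^ 2 ≤ S.a j h := by
  rw [sum_cons j (fun L => S.xw L h ^ 2), Finset.sum_comm]
  refine Finset.sum_le_sum fun I _ => ?_
  exact hJ.c0 (S.word (List.ofFn I) h)

/-- the squared norm of the mean `j`-th derivative -/
def DD (E : MvPolynomial ι ℝ →ₗ[ℝ] ℝ) (j : ℕ) (p : MvPolynomial ι ℝ) : ℝ :=
  ∑ I : Fin j → ι, E (dL (List.ofFn I) p) ^ 2

omit [DecidableEq ι] in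
theorem DD_nonneg (j : ℕ) (p : MvPolynomial ι ℝ) : 0 ≤ DD E j p :=
  Finset.sum_nonneg fun _ _ => sq_nonneg _

/-- BASE CASE: a bound for the operators gives the polynomial inequality -/
theorem base_case (hJ : PolyJ S E J) (s δ : ℝ) (hs : 0 < s) (hδ : 0 < δ)
    (ha : ∀ (k : ℕ) (g : H), S.a k g ≤ 2 * s ^ k * ‖g‖ ^ 2)
    (p : MvPolynomial ι ℝ) (b : ℕ) (hp : p.totalDegree ≤ b) :
    ‖J p‖ ^ 2 ≤ ∑ j ∈ Finset.Icc 1 b, (2 / (δ * s)) * ((1 + δ) * s) ^ j * DD E j p := by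
  set N := ‖J p‖ with hN
  have hN0 : 0 ≤ N := norm_nonneg _
  -- first step: N^2 ≤ ∑ sqrt(DD) sqrt(2 s^j) N
  have h1 : N ^ 2 ≤ (∑ j ∈ Finset.range b, Real.sqrt (DD E (j + 1) p) * Real.sqrt (2 * s ^ j)) * N := by
    have e : N ^ 2 = ⟪J p, J p⟫_ℝ := (real_inner_self_eq_norm_sq _).symm
    rw [e, taylor hJ p b hp (J p), Finset.sum_mul]
    refine Finset.sum_le_sum fun j _ => ?_
    have hcs : (∑ I : Fin (j + 1) → ι, E (dL (List.ofFn I) p) * S.xw (List.ofFn I) (J p)) ^ 2 ≤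
        DD E (j + 1) p * (∑ I : Fin (j + 1) → ι, S.xw (List.ofFn I) (J p) ^ 2) :=
      Finset.sum_mul_sq_le_sq_mul_sq _ _ _
    have h2 : ∑ I : Fin (j + 1) → ι, S.xw (List.ofFn I) (J p) ^ 2 ≤ 2 * s ^ j * N ^ 2 :=
      (sum_xw_sq_le hJ j (J p)).trans (ha j (J p))
    have h3 : (∑ I : Fin (j + 1) → ι, E (dL (List.ofFn I) p) * S.xw (List.ofFn I) (J p)) ^ 2 ≤
        DD E (j + 1) p * (2 * s ^ j * N ^ 2) :=
      hcs.trans (mul_le_mul_of_nonneg_left h2 (DD_nonneg _ _))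
    refine (Real.le_sqrt_of_sq_le h3).trans (le_of_eq ?_)
    rw [Real.sqrt_mul (DD_nonneg _ _), Real.sqrt_mul (by positivity : (0:ℝ) ≤ 2 * s ^ j),
      Real.sqrt_sq hN0, mul_assoc]
  -- second step: N ≤ ∑
  set Q := ∑ j ∈ Finset.range b, Real.sqrt (DD E (j + 1) p) * Real.sqrt (2 * s ^ j) with hQ
  have hQ0 : 0 ≤ Q := Finset.sum_nonneg fun _ _ => by positivity
  have h2 : N ≤ Q := by
    by_contra hcon
    push Not at hcon
    have : Q * N < N * N := mul_lt_mul_of_pos_right hcon (lt_of_le_of_lt hQ0 hcon)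
    nlinarith
  have h3 : N ^ 2 ≤ Q ^ 2 := pow_le_pow_left₀ hN0 h2 2
  -- third step: Cauchy Schwarz with the geometric weights
  have hd1 : (0:ℝ) < 1 + δ := by linarith
  have h4 : Q ^ 2 ≤ (∑ j ∈ Finset.range b, ((1 + δ)⁻¹) ^ (j + 1)) *
      ∑ j ∈ Finset.range b, (1 + δ) ^ (j + 1) * (2 * s ^ j) * DD E (j + 1) p := by
    have e : Q = ∑ j ∈ Finset.range b, Real.sqrt (((1 + δ)⁻¹) ^ (j + 1)) *
        Real.sqrt ((1 + δ) ^ (j + 1) * (2 * s ^ j) * DD E (j + 1) p) := by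
      rw [hQ]
      refine Finset.sum_congr rfl fun j _ => ?_
      rw [← Real.sqrt_mul (DD_nonneg _ _), ← Real.sqrt_mul (by positivity)]
      congr 1
      rw [inv_pow]
      field_simp
    rw [e]
    refine (Finset.sum_mul_sq_le_sq_mul_sq _ _ _).trans (le_of_eq ?_)
    congr 1
    · exact Finset.sum_congr rfl fun j _ => Real.sq_sqrt (by positivity)
    · refine Finset.sum_congr rfl fun j _ => Real.sq_sqrt ?_
      have := DD_nonneg (E := E) (j + 1) p
      positivity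
  have h5 : ∑ j ∈ Finset.range b, ((1 + δ)⁻¹) ^ (j + 1) ≤ 1 / δ := by
    have hgeo : ∀ n : ℕ, ∑ j ∈ Finset.range n, ((1 + δ)⁻¹) ^ (j + 1) =
        (1 - ((1 + δ)⁻¹) ^ n) / δ := by
      intro n
      induction n with
      | zero => simp
      | succ n ihn =>
        rw [Finset.sum_range_succ, ihn, pow_succ]
        field_simp
        ring
    rw [hgeo]
    have : 0 ≤ ((1 + δ)⁻¹) ^ b := by positivity
    exact div_le_div_of_nonneg_right (by linarith) hδ.le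
  have h6 : 0 ≤ ∑ j ∈ Finset.range b, (1 + δ) ^ (j + 1) * (2 * s ^ j) * DD E (j + 1) p :=
    Finset.sum_nonneg fun j _ => by
      have := DD_nonneg (E := E) (j + 1) p
      positivity
  refine h3.trans (h4.trans ((mul_le_mul_of_nonneg_right h5 h6).trans (le_of_eq ?_)))
  rw [Finset.mul_sum]
  have e2 : Finset.Icc 1 b = (Finset.range b).image (fun j => j + 1) := by
    ext k
    simp only [Finset.mem_Icc, Finset.mem_image, Finset.mem_range]
    constructor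
    · rintro ⟨h1, h2⟩; exact ⟨k - 1, by omega, by omega⟩
    · rintro ⟨j, hj, rfl⟩; omega
  rw [e2, Finset.sum_image (fun a _ b _ h => by omega)]
  refine Finset.sum_congr rfl fun j _ => ?_
  rw [mul_pow, pow_succ s j]
  field_simp

/-- MOMENT BOUNDS: the polynomial inequality gives `(M_l)` -/
theorem mom_of_poly (hJ : PolyJ S E J) (b : ℕ) (c m : ℝ)
    (hP : ∀ p : MvPolynomial ι ℝ, p.totalDegree ≤ b →
      ‖J p‖ ^ 2 ≤ ∑ j ∈ Finset.Icc 1 b, c * m ^ j * DD E j p)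
    (l : ℕ) (hl : 1 ≤ l) (hlb : l ≤ b) : S.Mom l (c * m ^ l) := by
  intro c' hc' h
  obtain ⟨f, hf1, hf2, hf3⟩ := appell_exists E hJ.e1 l c' hc'
  have hEC : ∀ r : ℝ, E (C r) = r := by
    intro r
    have : (C r : MvPolynomial ι ℝ) = r • (1 : MvPolynomial ι ℝ) := by
      rw [smul_eq_C_mul, mul_one]
    rw [this, map_smul, hJ.e1, smul_eq_mul, mul_one]
  -- the mean derivatives of f
  have hlow : ∀ j : ℕ, 1 ≤ j → j < l → ∀ I : Fin j → ι, E (dL (List.ofFn I) f) = 0 := by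
    intro j h1 h2 I
    exact hf2 _ (by rw [List.length_ofFn]; omega) (by rw [List.length_ofFn]; omega)
  have hhigh : ∀ j : ℕ, l < j → ∀ I : Fin j → ι, dL (List.ofFn I) f = 0 := by
    intro j h1 I
    exact dL_eq_zero _ _ (by rw [List.length_ofFn]; omega)
  have htop : ∀ I : Fin l → ι, E (dL (List.ofFn I) f) = c' I := by
    intro I; rw [hf3, hEC]
  -- the inner product
  have hin : ⟪J f, h⟫_ℝ = ∑ I : Fin l → ι, c' I * S.xw (List.ofFn I) h := by
    rw [taylor hJ f l hf1 h]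
    obtain ⟨l', rfl⟩ : ∃ l', l = l' + 1 := ⟨l - 1, by omega⟩
    rw [Finset.sum_range_succ]
    have : ∑ j ∈ Finset.range l', ∑ I : Fin (j + 1) → ι,
        E (dL (List.ofFn I) f) * S.xw (List.ofFn I) h = 0 := by
      refine Finset.sum_eq_zero fun j hj => Finset.sum_eq_zero fun I _ => ?_
      rw [Finset.mem_range] at hj
      rw [hlow (j + 1) (by omega) (by omega) I, zero_mul]
    rw [this, zero_add]
    exact Finset.sum_congr rfl fun I _ => by rw [htop]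
  have hvar : ‖J f‖ ^ 2 ≤ c * m ^ l * ∑ I : Fin l → ι, c' I ^ 2 := by
    refine (hP f (hf1.trans hlb)).trans (le_of_eq ?_)
    rw [Finset.sum_eq_single l]
    · congr 1
      exact Finset.sum_congr rfl fun I _ => by rw [htop]
    · intro j hj hjl
      rw [Finset.mem_Icc] at hj
      have : DD E j f = 0 := by
        refine Finset.sum_eq_zero fun I _ => ?_
        rcases lt_or_gt_of_ne hjl with h1 | h1
        · rw [hlow j hj.1 h1 I]; norm_num
        · rw [hhigh j h1 I, map_zero]; norm_num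
      rw [this, mul_zero]
    · intro hn
      exact absurd (Finset.mem_Icc.mpr ⟨hl, hlb⟩) hn
  rw [← hin]
  have hcs : ⟪J f, h⟫_ℝ ^ 2 ≤ ‖J f‖ ^ 2 * ‖h‖ ^ 2 := by
    have := abs_real_inner_le_norm (J f) h
    rw [← mul_pow]
    exact sq_le_sq' (by linarith [(abs_le.mp this).1]) (abs_le.mp this).2
  exact hcs.trans (mul_le_mul_of_nonneg_right hvar (sq_nonneg _))

end Pool.Agent.Lib.MP_8d00da_gt.h83a
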